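import Mathlib

/-!
# MP_bb8c7b_al: the lattices of diagonal sublattices of a finitely generated variety

For every finite lattice `K` and every lattice `L` in the variety generated by `K`, the lattice
`Δ(L)` of diagonal sublattices of `L × L` satisfies every identity of the *finite* lattice
`Sub(K × K)`.  Hence `{Δ(L) : L ∈ V}` does not generate the variety of all lattices when `V` is a
finitely generated variety of lattices, for instance when `V` is generated by `M₃`.
-/

namespace Pool.Agent.Results.MP_bb8c7b_al.FinGen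

universe u v w

/-- Lattice terms in the variables `x₀, x₁, x₂, …`. -/
inductive LTerm : Type
  | var : ℕ → LTerm
  | sup : LTerm → LTerm → LTerm
  | inf : LTerm → LTerm → LTerm

/-- The value of a lattice term. -/
def LTerm.eval {α : Type u} [Lattice α] (v : ℕ → α) : LTerm → α
  | .var i => v i
  | .sup s t => s.eval v ⊔ t.eval v
  | .inf s t => s.eval v ⊓ t.eval v

/-- The identity `s = t` holds in the lattice `α`. -/
def Holds (α : Type u) [Lattice α] (s t : LTerm) : Prop :=
  ∀ v : ℕ → α, s.eval v = t.eval v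

/-- `α` belongs to the variety of lattices defined by the set `E` of identities. -/
def InVar (E : Set (LTerm × LTerm)) (α : Type u) [Lattice α] : Prop :=
  ∀ p ∈ E, Holds α p.1 p.2

/-- The set of all identities of a lattice `K`; `InVar (Ids K)` is the variety generated
by `K`. -/
def Ids (K : Type u) [Lattice K] : Set (LTerm × LTerm) := {p | Holds K p.1 p.2}

/-- The diagonal of `L × L`, as a sublattice. -/
def diagSub (L : Type u) [Lattice L] : Sublattice (L × L) where
  carrier := {p | p.1 = p.2}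
  supClosed' := by
    rintro ⟨a, b⟩ h ⟨c, d⟩ h'
    change a = b at h
    change c = d at h'
    change a ⊔ c = b ⊔ d
    rw [h, h']
  infClosed' := by
    rintro ⟨a, b⟩ h ⟨c, d⟩ h'
    change a = b at h
    change c = d at h'
    change a ⊓ c = b ⊓ d
    rw [h, h']

/-- `Δ(L)`: the lattice of all sublattices of `L × L` that contain the diagonal. -/
abbrev Delta (L : Type u) [Lattice L] : Type u := Set.Ici (diagSub L)

/-- A lattice is distributive. -/
def IsDistrib (α : Type u) [Lattice α] : Prop :=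
  ∀ x y z : α, x ⊓ (y ⊔ z) = (x ⊓ y) ⊔ (x ⊓ z)

/-! ## The map `ρ ↦ (f × g)(ρ)` -/

/-- The homomorphism `(x, y) ↦ (f x, g y)`. -/
def pairHom {L : Type u} {A : Type v} {B : Type w} [Lattice L] [Lattice A] [Lattice B]
    (f : LatticeHom L A) (g : LatticeHom L B) : LatticeHom (L × L) (A × B) where
  toFun p := (f p.1, g p.2)
  map_sup' p q := by simp
  map_inf' p q := by simp

@[simp] lemma pairHom_apply {L : Type u} {A : Type v} {B : Type w} [Lattice L] [Lattice A]
    [Lattice B] (f : LatticeHom L A) (g : LatticeHom L B) (p : L × L) :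
    pairHom f g p = (f p.1, g p.2) := rfl

lemma mem_diag {L : Type u} [Lattice L] {ρ : Sublattice (L × L)} (h : diagSub L ≤ ρ) (x : L) :
    (x, x) ∈ ρ := h (show (x, x) ∈ diagSub L from rfl)

/-- The key computation: `(f × g)(ρ ∩ σ) = (f × g)(ρ) ∩ (f × g)(σ)` for diagonal sublattices. -/
lemma map_inf_diag {L : Type u} {A : Type v} {B : Type w} [Lattice L] [Lattice A] [Lattice B]
    (f : LatticeHom L A) (g : LatticeHom L B) {ρ σ : Sublattice (L × L)}
    (hρ : diagSub L ≤ ρ) (hσ : diagSub L ≤ σ) :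
    (ρ ⊓ σ).map (pairHom f g) = ρ.map (pairHom f g) ⊓ σ.map (pairHom f g) := by
  apply le_antisymm (Sublattice.map_inf_le _ _ _)
  rintro ⟨p, q⟩ ⟨h1, h2⟩
  obtain ⟨⟨x, y⟩, hxy, hp⟩ := h1
  obtain ⟨⟨x', y'⟩, hxy', hp'⟩ := h2
  simp only [pairHom_apply, Prod.mk.injEq] at hp hp'
  obtain ⟨hp1, hp2⟩ := hp
  obtain ⟨hp1', hp2'⟩ := hp'
  -- the element of `ρ ∩ σ`
  refine ⟨((x ⊔ x') ⊓ ((x ⊔ (y ⊔ y')) ⊓ (x' ⊔ (y ⊔ y'))),
    ((y ⊔ (x ⊔ x')) ⊓ (y' ⊔ (x ⊔ x'))) ⊓ (y ⊔ y')), ⟨?_, ?_⟩, ?_⟩
  · -- membership in `ρ`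
    have d := fun z => mem_diag hρ z
    have e1 : ((x ⊔ (x ⊔ x')) ⊓ (y' ⊔ (x ⊔ x')), (y ⊔ (x ⊔ x')) ⊓ (y' ⊔ (x ⊔ x'))) ∈ ρ :=
      ρ.inf_mem (ρ.sup_mem hxy (d (x ⊔ x'))) (d (y' ⊔ (x ⊔ x')))
    have e2 : ((x ⊔ (y ⊔ y')) ⊓ (x' ⊔ (y ⊔ y')), (y ⊔ (y ⊔ y')) ⊓ (x' ⊔ (y ⊔ y'))) ∈ ρ :=
      ρ.inf_mem (ρ.sup_mem hxy (d (y ⊔ y'))) (d (x' ⊔ (y ⊔ y')))
    have e3 := ρ.inf_mem e1 e2
    have h1 : (x ⊔ (x ⊔ x')) ⊓ (y' ⊔ (x ⊔ x')) = x ⊔ x' := by
      rw [← sup_assoc, sup_idem]
      exact inf_eq_left.2 le_sup_right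
    have h2 : (y ⊔ (y ⊔ y')) ⊓ (x' ⊔ (y ⊔ y')) = y ⊔ y' := by
      rw [← sup_assoc, sup_idem]
      exact inf_eq_left.2 le_sup_right
    rw [h1, h2] at e3
    exact e3
  · have d := fun z => mem_diag hσ z
    have e1 : ((y ⊔ (x ⊔ x')) ⊓ (x' ⊔ (x ⊔ x')), (y ⊔ (x ⊔ x')) ⊓ (y' ⊔ (x ⊔ x'))) ∈ σ :=
      σ.inf_mem (d (y ⊔ (x ⊔ x'))) (σ.sup_mem hxy' (d (x ⊔ x')))
    have e2 : ((x ⊔ (y ⊔ y')) ⊓ (x' ⊔ (y ⊔ y')), (x ⊔ (y ⊔ y')) ⊓ (y' ⊔ (y ⊔ y'))) ∈ σ :=
      σ.inf_mem (d (x ⊔ (y ⊔ y'))) (σ.sup_mem hxy' (d (y ⊔ y')))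
    have e3 := σ.inf_mem e1 e2
    have h1 : (y ⊔ (x ⊔ x')) ⊓ (x' ⊔ (x ⊔ x')) = x ⊔ x' := by
      rw [show x' ⊔ (x ⊔ x') = x ⊔ x' by rw [sup_comm x' , sup_assoc, sup_idem]]
      exact inf_eq_right.2 le_sup_right
    have h2 : (x ⊔ (y ⊔ y')) ⊓ (y' ⊔ (y ⊔ y')) = y ⊔ y' := by
      rw [show y' ⊔ (y ⊔ y') = y ⊔ y' by rw [sup_comm y' , sup_assoc, sup_idem]]
      exact inf_eq_right.2 le_sup_right
    rw [h1, h2] at e3
    exact e3
  · simp only [pairHom_apply, map_inf, map_sup, hp1, hp1', hp2, hp2', Prod.mk.injEq]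
    constructor
    · rw [sup_idem, ← inf_assoc, inf_sup_self, inf_sup_self]
    · rw [sup_idem, inf_assoc, inf_comm, inf_assoc]
      rw [show q ⊓ (q ⊔ (g x ⊔ g x')) = q from inf_sup_self]
      rw [inf_comm, inf_sup_self]


/-! ## Evaluating terms -/

section Eval

variable {L : Type u} {A : Type v} {B : Type w} [Lattice L] [Lattice A] [Lattice B]

lemma eval_coe (t : LTerm) (r : ℕ → Delta L) :
    ((t.eval r : Delta L) : Sublattice (L × L)) =
      t.eval (fun i => ((r i : Delta L) : Sublattice (L × L))) := by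
  induction t with
  | var i => rfl
  | sup s t hs ht =>
    change ((s.eval r : Delta L) : Sublattice (L × L)) ⊔ ((t.eval r : Delta L) : _) = _
    rw [hs, ht]; rfl
  | inf s t hs ht =>
    change ((s.eval r : Delta L) : Sublattice (L × L)) ⊓ ((t.eval r : Delta L) : _) = _
    rw [hs, ht]; rfl

/-- The map `ρ ↦ (f × g)(ρ)` is a lattice homomorphism from `Δ(L)` to `Sub(A × B)`. -/
lemma map_eval (f : LatticeHom L A) (g : LatticeHom L B) (t : LTerm) (r : ℕ → Delta L) :
    ((t.eval r : Delta L) : Sublattice (L × L)).map (pairHom f g) =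
      t.eval (fun i => ((r i : Delta L) : Sublattice (L × L)).map (pairHom f g)) := by
  induction t with
  | var i => rfl
  | sup s t hs ht =>
    have : ((LTerm.eval r (.sup s t) : Delta L) : Sublattice (L × L)) =
      ((s.eval r : Delta L) : Sublattice (L × L)) ⊔ ((t.eval r : Delta L) : _) := rfl
    rw [this, Sublattice.map_sup, hs, ht]; rfl
  | inf s t hs ht =>
    have : ((LTerm.eval r (.inf s t) : Delta L) : Sublattice (L × L)) =
      ((s.eval r : Delta L) : Sublattice (L × L)) ⊓ ((t.eval r : Delta L) : _) := rfl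
    rw [this, map_inf_diag f g (s.eval r).2 (t.eval r).2, hs, ht]; rfl

lemma eval_hom (f : LatticeHom L A) (t : LTerm) (r : ℕ → L) :
    f (t.eval r) = t.eval (fun i => f (r i)) := by
  induction t with
  | var i => rfl
  | sup s t hs ht => simp only [LTerm.eval, map_sup, hs, ht]
  | inf s t hs ht => simp only [LTerm.eval, map_inf, hs, ht]

/-- Renaming the variables of a term. -/
def LTerm.rename (r : ℕ → ℕ) : LTerm → LTerm
  | .var i => .var (r i)
  | .sup s t => .sup (s.rename r) (t.rename r)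
  | .inf s t => .inf (s.rename r) (t.rename r)

lemma eval_rename (r : ℕ → ℕ) (t : LTerm) (e : ℕ → L) :
    (t.rename r).eval e = t.eval (fun i => e (r i)) := by
  induction t with
  | var i => rfl
  | sup s t hs ht => simp only [LTerm.rename, LTerm.eval, hs, ht]
  | inf s t hs ht => simp only [LTerm.rename, LTerm.eval, hs, ht]

end Eval

/-! ## The Baker–Pixley argument -/

/-- The median. -/
def med {L : Type u} [Lattice L] (a b c : L) : L := (a ⊓ b) ⊔ (b ⊓ c) ⊔ (c ⊓ a)

lemma med_aab {L : Type u} [Lattice L] (a b : L) : med a a b = a := by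
  unfold med
  rw [inf_idem, sup_inf_self, inf_comm b a, sup_inf_self]

lemma med_aba {L : Type u} [Lattice L] (a b : L) : med a b a = a := by
  unfold med
  rw [inf_idem, inf_comm b a, sup_idem, sup_comm, sup_inf_self]

lemma med_baa {L : Type u} [Lattice L] (a b : L) : med b a a = a := by
  unfold med
  rw [inf_idem, inf_comm b a, sup_comm (a ⊓ b) a, sup_inf_self, sup_inf_self]

lemma hom_med {L : Type u} {A : Type v} [Lattice L] [Lattice A] (f : LatticeHom L A)
    (a b c : L) : f (med a b c) = med (f a) (f b) (f c) := by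
  unfold med
  simp only [map_sup, map_inf]

lemma med_mem {L : Type u} [Lattice L] (ρ : Sublattice L) {a b c : L} (ha : a ∈ ρ) (hb : b ∈ ρ)
    (hc : c ∈ ρ) : med a b c ∈ ρ :=
  ρ.sup_mem (ρ.sup_mem (ρ.inf_mem ha hb) (ρ.inf_mem hb hc)) (ρ.inf_mem hc ha)

/-- Baker–Pixley: a sublattice is determined by its projections to pairs of coordinates. -/
lemma bakerPixley {M : Type u} {K : Type v} [Lattice M] [Lattice K] {J : Type w} [Finite J]
    (e : J → LatticeHom M K) (he : ∀ x y : M, (∀ j, e j x = e j y) → x = y)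
    (ρ : Sublattice M) (z : M)
    (h : ∀ a b : J, ∃ w ∈ ρ, e a w = e a z ∧ e b w = e b z) (hJ : Nonempty J) : z ∈ ρ := by
  classical
  have := Fintype.ofFinite J
  have key : ∀ S : Finset J, ∀ a b : J, ∃ w ∈ ρ, (∀ k ∈ S, e k w = e k z) ∧
      e a w = e a z ∧ e b w = e b z := by
    intro S
    induction S using Finset.induction_on with
    | empty =>
      intro a b
      obtain ⟨w, hw, h1, h2⟩ := h a b
      exact ⟨w, hw, by simp, h1, h2⟩
    | insert c S hc ih =>
      intro a b
      obtain ⟨w1, hw1, h1, h1a, h1b⟩ := ih a b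
      obtain ⟨w2, hw2, h2, h2a, h2c⟩ := ih a c
      obtain ⟨w3, hw3, h3, h3b, h3c⟩ := ih b c
      refine ⟨med w1 w2 w3, med_mem ρ hw1 hw2 hw3, ?_, ?_, ?_⟩
      · intro k hk
        rw [hom_med]
        rcases Finset.mem_insert.1 hk with rfl | hk
        · rw [h2c, h3c, med_baa]
        · rw [h1 k hk, h2 k hk, h3 k hk, med_aab]
      · rw [hom_med, h1a, h2a, med_aab]
      · rw [hom_med, h1b, h3b, med_aba]
  obtain ⟨a⟩ := hJ
  obtain ⟨w, hw, h1, -, -⟩ := key Finset.univ a a
  have : w = z := he w z (fun j => h1 j (Finset.mem_univ j))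
  exact this ▸ hw

/-- If the homomorphisms `e i : P → K`, `i ∈ I`, `I` finite, separate the points of `P`, then
`Δ(P)` satisfies all the identities of `Sub(K × K)`. -/
lemma holds_of_separating {P : Type u} {K : Type v} [Lattice P] [Lattice K] {I : Type w}
    [Finite I] [Nonempty I] (e : I → LatticeHom P K)
    (he : ∀ x y : P, (∀ i, e i x = e i y) → x = y) {s t : LTerm}
    (hst : Holds (Sublattice (K × K)) s t) : Holds (Delta P) s t := by
  intro r
  have main : ∀ i j : I, ((s.eval r : Delta P) : Sublattice (P × P)).map (pairHom (e i) (e j)) =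
      ((t.eval r : Delta P) : Sublattice (P × P)).map (pairHom (e i) (e j)) := by
    intro i j
    rw [map_eval, map_eval]
    exact hst _
  -- the separating family on `P × P`
  let E : I ⊕ I → LatticeHom (P × P) K := Sum.elim
    (fun i => (e i).comp (LatticeHom.fst)) (fun i => (e i).comp (LatticeHom.snd))
  have hE : ∀ x y : P × P, (∀ j, E j x = E j y) → x = y := by
    intro x y h
    ext
    · exact he _ _ (fun i => h (Sum.inl i))
    · exact he _ _ (fun i => h (Sum.inr i))
  have sub : ∀ ρ σ : Sublattice (P × P), diagSub P ≤ σ →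
      (∀ i j : I, ρ.map (pairHom (e i) (e j)) = σ.map (pairHom (e i) (e j))) → ρ ≤ σ := by
    intro ρ σ hσ h z hz
    apply bakerPixley E hE σ z _ ⟨Sum.inl (Classical.arbitrary I)⟩
    rintro (i | i) (j | j)
    · exact ⟨(z.1, z.1), mem_diag hσ z.1, rfl, rfl⟩
    · have : pairHom (e i) (e j) z ∈ ρ.map (pairHom (e i) (e j)) :=
        Sublattice.mem_map_of_mem _ hz
      rw [h i j] at this
      obtain ⟨w, hw, hw'⟩ := this
      simp only [pairHom_apply, Prod.mk.injEq] at hw'
      exact ⟨w, hw, hw'.1, hw'.2⟩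
    · have : pairHom (e j) (e i) z ∈ ρ.map (pairHom (e j) (e i)) :=
        Sublattice.mem_map_of_mem _ hz
      rw [h j i] at this
      obtain ⟨w, hw, hw'⟩ := this
      simp only [pairHom_apply, Prod.mk.injEq] at hw'
      exact ⟨w, hw, hw'.2, hw'.1⟩
    · exact ⟨(z.2, z.2), mem_diag hσ z.2, rfl, rfl⟩
  apply Subtype.ext
  exact le_antisymm (sub _ _ (t.eval r).2 main) (sub _ _ (s.eval r).2 (fun i j => (main i j).symm))


/-! ## Homomorphic images and local finiteness -/

/-- `Δ(L)` is a homomorphic image of `Δ(P)` when `L` is a homomorphic image of `P`. -/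
lemma holds_of_surjective {P : Type u} {L : Type v} [Lattice P] [Lattice L]
    (f : LatticeHom P L) (hf : Function.Surjective f) {s t : LTerm}
    (hst : Holds (Delta P) s t) : Holds (Delta L) s t := by
  intro r
  have hd : ∀ i, diagSub P ≤ ((r i : Delta L) : Sublattice (L × L)).comap (pairHom f f) := by
    intro i z hz
    change z.1 = z.2 at hz
    change (f z.1, f z.2) ∈ ((r i : Delta L) : Sublattice (L × L))
    rw [hz]
    exact mem_diag (r i).2 _
  let r' : ℕ → Delta P := fun i => ⟨_, hd i⟩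
  have hr : ∀ i, ((r' i : Delta P) : Sublattice (P × P)).map (pairHom f f) =
      ((r i : Delta L) : Sublattice (L × L)) := by
    intro i
    apply le_antisymm
    · rintro z ⟨w, hw, rfl⟩
      exact hw
    · rintro ⟨x, y⟩ hz
      obtain ⟨x', rfl⟩ := hf x
      obtain ⟨y', rfl⟩ := hf y
      exact ⟨(x', y'), hz, rfl⟩
  have h := congrArg (fun ρ : Delta P => (ρ : Sublattice (P × P)).map (pairHom f f)) (hst r')
  simp only [map_eval, hr] at h
  apply Subtype.ext
  rw [eval_coe, eval_coe]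
  exact h

section Restrict

variable {L : Type u} [Lattice L]

/-- The restriction of a diagonal sublattice of `L × L` to a sublattice `L₀` of `L`. -/
def restr (L₀ : Sublattice L) (ρ : Delta L) : Delta L₀ :=
  ⟨(ρ : Sublattice (L × L)).comap (pairHom L₀.subtype L₀.subtype), by
    intro z hz
    change z.1 = z.2 at hz
    change ((z.1 : L), (z.2 : L)) ∈ (ρ : Sublattice (L × L))
    rw [hz]
    exact mem_diag ρ.2 _⟩

/-- The sublattice of `L × L` generated by the relation `ρ` on `L₀` (it is just `ρ`). -/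
def extRel (L₀ : Sublattice L) (ρ : Delta L₀) : Sublattice (L × L) :=
  (ρ : Sublattice (L₀ × L₀)).map (pairHom L₀.subtype L₀.subtype)

lemma ext_sup (L₀ : Sublattice L) (ρ σ : Delta L₀) : extRel L₀ (ρ ⊔ σ) = extRel L₀ ρ ⊔ extRel L₀ σ :=
  Sublattice.map_sup _ _ _

lemma ext_inf (L₀ : Sublattice L) (ρ σ : Delta L₀) : extRel L₀ (ρ ⊓ σ) = extRel L₀ ρ ⊓ extRel L₀ σ :=
  map_inf_diag _ _ ρ.2 σ.2

lemma ext_restr_le (L₀ : Sublattice L) (ρ : Delta L) : extRel L₀ (restr L₀ ρ) ≤ ρ := by
  rintro z ⟨w, hw, rfl⟩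
  exact hw

lemma ext_eval_le (L₀ : Sublattice L) (t : LTerm) (r : ℕ → Delta L) :
    extRel L₀ (t.eval (fun i => restr L₀ (r i))) ≤ ((t.eval r : Delta L) : Sublattice (L × L)) := by
  induction t with
  | var i => exact ext_restr_le L₀ (r i)
  | sup s t hs ht =>
    change extRel L₀ (s.eval _ ⊔ t.eval _) ≤
      ((s.eval r : Delta L) : Sublattice (L × L)) ⊔ ((t.eval r : Delta L) : _)
    rw [ext_sup]
    exact sup_le_sup hs ht
  | inf s t hs ht =>
    change extRel L₀ (s.eval _ ⊓ t.eval _) ≤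
      ((s.eval r : Delta L) : Sublattice (L × L)) ⊓ ((t.eval r : Delta L) : _)
    rw [ext_inf]
    exact inf_le_inf hs ht

/-- Every pair of the value of a term is obtained in a sublattice generated by finitely many
elements. -/
lemma exists_finset (t : LTerm) (r : ℕ → Delta L) (z : L × L)
    (hz : z ∈ ((t.eval r : Delta L) : Sublattice (L × L))) :
    ∃ W : Finset L, ∀ L₀ : Sublattice L, (∀ x ∈ W, x ∈ L₀) →
      z ∈ extRel L₀ (t.eval (fun i => restr L₀ (r i))) := by
  classical
  induction t generalizing z with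
  | var i =>
    refine ⟨{z.1, z.2}, fun L₀ h => ?_⟩
    have h1 : z.1 ∈ L₀ := h _ (by simp)
    have h2 : z.2 ∈ L₀ := h _ (by simp)
    exact ⟨(⟨z.1, h1⟩, ⟨z.2, h2⟩), hz, rfl⟩
  | sup s t hs ht =>
    let C : Sublattice (L × L) :=
      { carrier := {z | ∃ W : Finset L, ∀ L₀ : Sublattice L, (∀ x ∈ W, x ∈ L₀) →
          z ∈ extRel L₀ (LTerm.eval (fun i => restr L₀ (r i)) (.sup s t))}
        supClosed' := by
          rintro a ⟨W1, h1⟩ b ⟨W2, h2⟩
          refine ⟨W1 ∪ W2, fun L₀ h => ?_⟩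
          exact Sublattice.sup_mem (h1 L₀ (fun x hx => h x (Finset.mem_union_left _ hx)))
            (h2 L₀ (fun x hx => h x (Finset.mem_union_right _ hx)))
        infClosed' := by
          rintro a ⟨W1, h1⟩ b ⟨W2, h2⟩
          refine ⟨W1 ∪ W2, fun L₀ h => ?_⟩
          exact Sublattice.inf_mem (h1 L₀ (fun x hx => h x (Finset.mem_union_left _ hx)))
            (h2 L₀ (fun x hx => h x (Finset.mem_union_right _ hx))) }
    have h1 : ((s.eval r : Delta L) : Sublattice (L × L)) ≤ C := by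
      intro a ha
      obtain ⟨W, hW⟩ := hs a ha
      refine ⟨W, fun L₀ h => ?_⟩
      change a ∈ extRel L₀ (s.eval _ ⊔ t.eval _)
      rw [ext_sup]
      exact (le_sup_left : extRel L₀ (s.eval _) ≤ _) (hW L₀ h)
    have h2 : ((t.eval r : Delta L) : Sublattice (L × L)) ≤ C := by
      intro a ha
      obtain ⟨W, hW⟩ := ht a ha
      refine ⟨W, fun L₀ h => ?_⟩
      change a ∈ extRel L₀ (s.eval _ ⊔ t.eval _)
      rw [ext_sup]
      exact (le_sup_right : extRel L₀ (t.eval _) ≤ _) (hW L₀ h)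
    have h3 : ((s.eval r : Delta L) : Sublattice (L × L)) ⊔ ((t.eval r : Delta L) : _) ≤ C :=
      sup_le h1 h2
    exact h3 hz
  | inf s t hs ht =>
    have hz' : z ∈ ((s.eval r : Delta L) : Sublattice (L × L)) ∧
      z ∈ ((t.eval r : Delta L) : Sublattice (L × L)) := hz
    obtain ⟨W1, h1⟩ := hs z hz'.1
    obtain ⟨W2, h2⟩ := ht z hz'.2
    refine ⟨W1 ∪ W2, fun L₀ h => ?_⟩
    change z ∈ extRel L₀ (s.eval _ ⊓ t.eval _)
    rw [ext_inf]
    exact ⟨h1 L₀ (fun x hx => h x (Finset.mem_union_left _ hx)),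
      h2 L₀ (fun x hx => h x (Finset.mem_union_right _ hx))⟩

/-- If every finite subset of `L` lies in a sublattice `L₀` such that `Δ(L₀)` satisfies `s = t`,
then `Δ(L)` satisfies `s = t`. -/
lemma holds_of_local {s t : LTerm}
    (h : ∀ W : Finset L, ∃ L₀ : Sublattice L, (∀ x ∈ W, x ∈ L₀) ∧ Holds (Delta L₀) s t) :
    Holds (Delta L) s t := by
  intro r
  have aux : ∀ s t : LTerm,
      (∀ W : Finset L, ∃ L₀ : Sublattice L, (∀ x ∈ W, x ∈ L₀) ∧ Holds (Delta L₀) s t) →
      ((s.eval r : Delta L) : Sublattice (L × L)) ≤ ((t.eval r : Delta L) : _) := by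
    intro s t h z hz
    obtain ⟨W, hW⟩ := exists_finset s r z hz
    obtain ⟨L₀, h1, h2⟩ := h W
    have h3 := hW L₀ h1
    rw [h2] at h3
    exact ext_eval_le L₀ t r h3
  apply Subtype.ext
  apply le_antisymm (aux s t h) (aux t s _)
  intro W
  obtain ⟨L₀, h1, h2⟩ := h W
  exact ⟨L₀, h1, fun v => (h2 v).symm⟩

end Restrict

/-! ## The variety generated by a finite lattice -/

section Variety

variable {K : Type u} {L : Type v} [Lattice K] [Lattice L]

/-- reduction of the variables modulo `n + 1` -/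
def red (n : ℕ) (i : ℕ) : Fin (n + 1) := Fin.ofNat (n + 1) i

lemma red_val (n : ℕ) (j : Fin (n + 1)) : red n (j : ℕ) = j := by
  unfold red
  ext
  simp [Fin.ofNat, Nat.mod_eq_of_lt j.2]

/-- The graph of the homomorphism from the lattice of the `(n+1)`-ary term functions of `K` onto
the sublattice of `L` generated by `w`. -/
def graphP (K : Type u) [Lattice K] (n : ℕ) (w : Fin (n + 1) → L) :
    Sublattice (((Fin (n + 1) → K) → K) × L) where
  carrier := {p | ∃ τ : LTerm, p = (fun a => τ.eval (fun i => a (red n i)),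
    τ.eval (fun i => w (red n i)))}
  supClosed' := by
    rintro _ ⟨τ, rfl⟩ _ ⟨τ', rfl⟩
    exact ⟨.sup τ τ', rfl⟩
  infClosed' := by
    rintro _ ⟨τ, rfl⟩ _ ⟨τ', rfl⟩
    exact ⟨.inf τ τ', rfl⟩

/-- The sublattice of `L` generated by `w`. -/
def genL (n : ℕ) (w : Fin (n + 1) → L) : Sublattice L where
  carrier := {p | ∃ τ : LTerm, p = τ.eval (fun i => w (red n i))}
  supClosed' := by
    rintro _ ⟨τ, rfl⟩ _ ⟨τ', rfl⟩
    exact ⟨.sup τ τ', rfl⟩
  infClosed' := by
    rintro _ ⟨τ, rfl⟩ _ ⟨τ', rfl⟩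
    exact ⟨.inf τ τ', rfl⟩

/-- The projection of the graph onto the sublattice generated by `w`. -/
def projL (n : ℕ) (w : Fin (n + 1) → L) : LatticeHom (graphP K n w) (genL n w) where
  toFun p := ⟨p.1.2, by
    obtain ⟨τ, hτ⟩ := p.2
    exact ⟨τ, by rw [hτ]⟩⟩
  map_sup' p q := rfl
  map_inf' p q := rfl

lemma projL_surj (n : ℕ) (w : Fin (n + 1) → L) :
    Function.Surjective (projL (K := K) n w) := by
  rintro ⟨x, τ, rfl⟩
  exact ⟨⟨_, τ, rfl⟩, rfl⟩

/-- The coordinate homomorphisms of the graph. -/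
def coordK (n : ℕ) (w : Fin (n + 1) → L) (a : Fin (n + 1) → K) :
    LatticeHom (graphP K n w) K where
  toFun p := p.1.1 a
  map_sup' _ _ := rfl
  map_inf' _ _ := rfl

lemma coordK_inj (hL : InVar (Ids K) L) (n : ℕ) (w : Fin (n + 1) → L)
    (x y : graphP K n w) (h : ∀ a, coordK n w a x = coordK n w a y) : x = y := by
  obtain ⟨⟨φ, x⟩, τ, hτ⟩ := x
  obtain ⟨⟨ψ, y⟩, τ', hτ'⟩ := y
  simp only [Prod.mk.injEq] at hτ hτ'
  obtain ⟨rfl, rfl⟩ := hτ
  obtain ⟨rfl, rfl⟩ := hτ'
  have h' : ∀ a : Fin (n + 1) → K, τ.eval (fun i => a (red n i)) = τ'.eval (fun i => a (red n i)) :=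
    h
  have hid : Holds K (τ.rename (fun i => (red n i : ℕ))) (τ'.rename (fun i => (red n i : ℕ))) := by
    intro v
    rw [eval_rename, eval_rename]
    exact h' (fun j => v j)
  have hid' := hL (_, _) hid (fun i => w (red n i))
  simp only [eval_rename, red_val] at hid'
  apply Subtype.ext
  apply Prod.ext
  · exact funext h'
  · exact hid'

/-- **Main structural theorem.** If `K` is a finite lattice and `L` is a lattice in the variety
generated by `K`, then `Δ(L)` satisfies all the identities of the finite lattice `Sub(K × K)`. -/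
theorem delta_holds [Finite K] [Nonempty K] (hL : InVar (Ids K) L) {s t : LTerm}
    (hst : Holds (Sublattice (K × K)) s t) : Holds (Delta L) s t := by
  classical
  apply holds_of_local
  intro W
  by_cases hW : W.Nonempty
  · -- enumerate the elements of `W`
    obtain ⟨n, hn⟩ : ∃ n, W.card = n + 1 := ⟨W.card - 1, by have := hW.card_pos; omega⟩
    let w : Fin (n + 1) → L := fun i => (W.equivFin.symm (Fin.cast hn.symm i) : L)
    refine ⟨genL n w, ?_, ?_⟩
    · intro x hx
      refine ⟨.var (Fin.cast hn (W.equivFin ⟨x, hx⟩) : ℕ), ?_⟩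
      simp only [LTerm.eval, red_val, w]
      simp
    · exact holds_of_surjective (projL (K := K) n w) (projL_surj n w)
        (holds_of_separating (coordK n w) (coordK_inj hL n w) hst)
  · rw [Finset.not_nonempty_iff_eq_empty] at hW
    subst hW
    refine ⟨⊥, by simp, ?_⟩
    intro v
    have : Subsingleton (Delta (⊥ : Sublattice L)) := by
      constructor
      intro a b
      apply Subtype.ext
      apply SetLike.ext
      intro z
      exact absurd z.1.2 (Sublattice.notMem_bot _)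
    exact Subsingleton.elim _ _

end Variety


/-! ## An identity which holds in all lattices with at most `M` elements but not in all lattices -/

/-- `x₀ ∨ ((p ∨ x_b) ∧ x₃)` -/
def stepT (b : ℕ) (p : LTerm) : LTerm := .sup (.var 0) (.inf (.sup p (.var b)) (.var 3))

/-- The increasing sequence of terms. -/
def sT : ℕ → LTerm
  | 0 => .var 0
  | k + 1 => stepT 1 (stepT 2 (sT k))

section Chain

variable {α : Type u} [Lattice α]

/-- The polynomial `p ↦ x₀ ∨ ((p ∨ x_b) ∧ x₃)`. -/
def stepF (v : ℕ → α) (b : ℕ) (p : α) : α := v 0 ⊔ ((p ⊔ v b) ⊓ v 3)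

lemma stepF_mono (v : ℕ → α) (b : ℕ) {p q : α} (h : p ≤ q) : stepF v b p ≤ stepF v b q :=
  sup_le_sup_left (inf_le_inf_right _ (sup_le_sup_right h _)) _

lemma eval_sT_succ (v : ℕ → α) (k : ℕ) :
    (sT (k + 1)).eval v = stepF v 1 (stepF v 2 ((sT k).eval v)) := rfl

lemma sT_le (v : ℕ → α) (k : ℕ) : (sT k).eval v ≤ (sT (k + 1)).eval v := by
  induction k with
  | zero =>
    rw [eval_sT_succ]
    exact le_sup_left
  | succ k ih =>
    rw [eval_sT_succ, eval_sT_succ v (k + 1)]
    exact stepF_mono v 1 (stepF_mono v 2 ih)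

lemma sT_stable (v : ℕ → α) {k : ℕ} (h : (sT k).eval v = (sT (k + 1)).eval v) (m : ℕ) :
    (sT (k + m)).eval v = (sT (k + m + 1)).eval v := by
  induction m with
  | zero => exact h
  | succ m ih =>
    have e1 : (sT (k + (m + 1))).eval v = stepF v 1 (stepF v 2 ((sT (k + m)).eval v)) := rfl
    have e2 : (sT (k + (m + 1) + 1)).eval v = stepF v 1 (stepF v 2 ((sT (k + m + 1)).eval v)) := rfl
    rw [e1, e2, ih]

lemma sT_holds [Finite α] (M : ℕ) (hM : Nat.card α ≤ M) : Holds α (sT M) (sT (M + 1)) := by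
  intro v
  by_contra hne
  have h1 : ∀ k ≤ M, (sT k).eval v < (sT (k + 1)).eval v := by
    intro k hk
    refine lt_of_le_of_ne (sT_le v k) (fun h => hne ?_)
    have := sT_stable v h (M - k)
    rwa [Nat.add_sub_cancel' hk] at this
  have h2 : ∀ i j : ℕ, i < j → j ≤ M + 1 → (sT i).eval v < (sT j).eval v := by
    intro i j hij
    induction j, hij using Nat.le_induction with
    | base => intro h; exact h1 i (by omega)
    | succ j hj ih => intro h; exact (ih (by omega)).trans (h1 j (by omega))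
  have := Fintype.ofFinite α
  have hinj : Function.Injective (fun i : Fin (M + 2) => (sT (i : ℕ)).eval v) := by
    intro i j hij
    by_contra hne'
    rcases lt_or_gt_of_ne (fun h => hne' (Fin.ext h) : (i : ℕ) ≠ j) with h | h
    · exact (h2 i j h (by omega)).ne hij
    · exact (h2 j i h (by omega)).ne hij.symm
  have hc := Fintype.card_le_of_injective _ hinj
  rw [Fintype.card_fin, ← Nat.card_eq_fintype_card] at hc
  omega

end Chain

/-- The equivalence relation on `ℕ` whose only nontrivial class is `{0, …, n}`. -/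
def En (n : ℕ) : Setoid ℕ where
  r x y := x = y ∨ (x ≤ n ∧ y ≤ n)
  iseqv := ⟨fun x => Or.inl rfl, fun h => by omega, fun h h' => by omega⟩

/-- The classes `{0,1}, {2,3}, …`. -/
def Ea : Setoid ℕ where
  r x y := x / 2 = y / 2
  iseqv := ⟨fun _ => rfl, fun h => h.symm, fun h h' => h.trans h'⟩

/-- The classes `{0}, {1,2}, {3,4}, …`. -/
def Eb : Setoid ℕ where
  r x y := (x + 1) / 2 = (y + 1) / 2
  iseqv := ⟨fun _ => rfl, fun h => h.symm, fun h h' => h.trans h'⟩

/-- The even and the odd numbers. -/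
def Ec : Setoid ℕ where
  r x y := x % 2 = y % 2
  iseqv := ⟨fun _ => rfl, fun h => h.symm, fun h h' => h.trans h'⟩

/-- The valuation in the partition lattice of `ℕ`. -/
def val : ℕ → Setoid ℕ
  | 0 => En 1
  | 1 => Ea
  | 2 => Eb
  | _ => Ec

/-- The equivalence relation generated by `{0, …, n}²` and `δ`, if `{0, …, n}` is a union of
classes of `δ`. -/
def joinE (δ : Setoid ℕ) (n : ℕ) (h : ∀ x y, δ x y → x ≤ n → y ≤ n) : Setoid ℕ where
  r x y := (x ≤ n ∧ y ≤ n) ∨ δ x y
  iseqv := by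
    refine ⟨fun x => Or.inr (δ.refl x), ?_, ?_⟩
    · rintro x y (h' | h')
      · exact Or.inl ⟨h'.2, h'.1⟩
      · exact Or.inr (δ.symm h')
    · rintro x y z (h1 | h1) (h2 | h2)
      · exact Or.inl ⟨h1.1, h2.2⟩
      · exact Or.inl ⟨h1.1, h y z h2 h1.2⟩
      · exact Or.inl ⟨h y x (δ.symm h1) h2.1, h2.2⟩
      · exact Or.inr (δ.trans h1 h2)

lemma step_upper (b n : ℕ) (hn : 0 < n) (h : ∀ x y, val b x y → x ≤ n → y ≤ n)
    (hc : ∀ x y, val b x y → x % 2 = y % 2 → x = y) (p : Setoid ℕ) (hp : p ≤ En n) :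
    stepF val b p ≤ En n := by
  have h0 : (val 0 : Setoid ℕ) ≤ En n := by
    intro x y hxy
    change x = y ∨ (x ≤ 1 ∧ y ≤ 1) at hxy
    change x = y ∨ (x ≤ n ∧ y ≤ n)
    omega
  have h1 : p ⊔ val b ≤ joinE (val b) n h := by
    apply sup_le
    · intro x y hxy
      rcases hp hxy with h' | h'
      · rw [h']
      · exact Or.inl h'
    · intro x y hxy
      exact Or.inr hxy
  apply sup_le h0
  intro x y hxy
  have h2 : (p ⊔ val b) x y ∧ (val 3) x y := hxy
  rcases h1 h2.1 with h' | h'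
  · exact Or.inr h'
  · exact Or.inl (hc x y h' h2.2)

lemma step_lower (b n : ℕ) (hb : val b n (n + 1)) (p : Setoid ℕ) (hp : p 0 n)
    (h01 : p 0 1) : (stepF val b p) 0 (n + 1) ∧ (stepF val b p) 0 1 := by
  have e0 : (stepF val b p) 0 1 := (le_sup_left : val 0 ≤ _) (Or.inr ⟨by omega, by omega⟩)
  refine ⟨?_, e0⟩
  have h1 : (p ⊔ val b) 0 (n + 1) :=
    Setoid.trans' _ ((le_sup_left : p ≤ p ⊔ val b) hp) ((le_sup_right : val b ≤ p ⊔ val b) hb)
  have h2 : (p ⊔ val b) 1 (n + 1) :=
    Setoid.trans' _ (Setoid.symm' _ ((le_sup_left : p ≤ p ⊔ val b) h01)) h1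
  rcases Nat.even_or_odd (n + 1) with he | ho
  · have : ((p ⊔ val b) ⊓ val 3) 0 (n + 1) := ⟨h1, by
      change 0 % 2 = (n + 1) % 2
      have := Nat.even_iff.1 he
      omega⟩
    exact (le_sup_right : (p ⊔ val b) ⊓ val 3 ≤ _) this
  · have : ((p ⊔ val b) ⊓ val 3) 1 (n + 1) := ⟨h2, by
      change 1 % 2 = (n + 1) % 2
      have := Nat.odd_iff.1 ho
      omega⟩
    exact Setoid.trans' _ e0 ((le_sup_right : (p ⊔ val b) ⊓ val 3 ≤ _) this)

lemma sT_bounds (k : ℕ) : ((sT k).eval val ≤ En (2 * k + 1)) ∧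
    ((sT k).eval val) 0 (2 * k + 1) ∧ ((sT k).eval val) 0 1 := by
  induction k with
  | zero =>
    refine ⟨le_of_eq rfl, Or.inr ⟨by omega, by omega⟩, Or.inr ⟨by omega, by omega⟩⟩
  | succ k ih =>
    obtain ⟨h1, h2, h3⟩ := ih
    rw [eval_sT_succ]
    have mono : ∀ a b : ℕ, a ≤ b → En a ≤ En b := by
      intro a b hab x y hxy
      change x = y ∨ (x ≤ a ∧ y ≤ a) at hxy
      change x = y ∨ (x ≤ b ∧ y ≤ b)
      omega
    have u1 : stepF val 2 ((sT k).eval val) ≤ En (2 * k + 2) := by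
      apply step_upper 2 (2 * k + 2) (by omega) _ _ _ (h1.trans (mono _ _ (by omega)))
      · intro x y hxy hx
        change (x + 1) / 2 = (y + 1) / 2 at hxy
        omega
      · intro x y hxy hx
        change (x + 1) / 2 = (y + 1) / 2 at hxy
        omega
    have u2 : stepF val 1 (stepF val 2 ((sT k).eval val)) ≤ En (2 * (k + 1) + 1) := by
      apply step_upper 1 (2 * (k + 1) + 1) (by omega) _ _ _ (u1.trans (mono _ _ (by omega)))
      · intro x y hxy hx
        change x / 2 = y / 2 at hxy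
        omega
      · intro x y hxy hx
        change x / 2 = y / 2 at hxy
        omega
    obtain ⟨l1, l2⟩ := step_lower 2 (2 * k + 1) (by
      change (2 * k + 1 + 1) / 2 = (2 * k + 1 + 1 + 1) / 2
      omega) _ h2 h3
    obtain ⟨l3, l4⟩ := step_lower 1 (2 * k + 1 + 1) (by
      change (2 * k + 1 + 1) / 2 = (2 * k + 1 + 1 + 1) / 2
      omega) _ l1 l2
    exact ⟨u2, l3, l4⟩

lemma sT_fails (M : ℕ) : ¬ Holds (Setoid ℕ) (sT M) (sT (M + 1)) := by
  intro h
  have h1 := (sT_bounds M).1
  have h2 := (sT_bounds (M + 1)).2.1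
  rw [← h val] at h2
  have h3 := h1 h2
  change 0 = 2 * (M + 1) + 1 ∨ (0 ≤ 2 * M + 1 ∧ 2 * (M + 1) + 1 ≤ 2 * M + 1) at h3
  omega


/-- For every finite lattice `K` there is an identity which fails in some lattice and holds in
`Δ(L)` for every lattice `L` in the variety generated by `K`. -/
theorem exists_identity (K : Type u) [Lattice K] [Finite K] [Nonempty K] :
    ∃ s t : LTerm, (∃ (β : Type) (_ : Lattice β), ¬ Holds β s t) ∧
      ∀ (L : Type v) [Lattice L], InVar (Ids K) L → Holds (Delta L) s t := by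
  have : Finite (Sublattice (K × K)) :=
    Finite.of_injective (fun S : Sublattice (K × K) => (S : Set (K × K))) SetLike.coe_injective
  refine ⟨sT (Nat.card (Sublattice (K × K))), sT (Nat.card (Sublattice (K × K)) + 1),
    ⟨Setoid ℕ, inferInstance, sT_fails _⟩, ?_⟩
  intro L _ hL
  exact delta_holds hL (sT_holds _ le_rfl)

/-! ## The lattice `M₃` -/

/-- The elements of the lattice `M₃`. -/
inductive M3 : Type
  | bot | a | b | c | top
  deriving DecidableEq, Fintype

instance : Max M3 :=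
  ⟨fun x y => if x = y then x else if x = .bot then y else if y = .bot then x else .top⟩

instance : Min M3 :=
  ⟨fun x y => if x = y then x else if x = .top then y else if y = .top then x else .bot⟩

instance : Lattice M3 :=
  Lattice.mk' (by decide) (by decide) (by decide) (by decide) (by decide) (by decide)

instance : Nontrivial M3 := ⟨.bot, .top, by decide⟩

lemma M3_not_distrib : ¬ IsDistrib M3 := by
  intro h
  have := h .a .b .c
  revert this
  decide

/-- **Negative answer to Q1 of MP_bb8c7b_al**, for every finitely generated variety.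

For every finite lattice `K` there is a lattice identity which fails in some lattice but holds in
`Δ(L)` for every `L` in the variety generated by `K`; and there are finite lattices `K` which are
not distributive (for instance `M₃`), so that the variety generated by `K` is nontrivial and
different from the variety of distributive lattices. -/
theorem result :
    (∀ (K : Type u) [Lattice K] [Finite K] [Nonempty K],
      ∃ s t : LTerm, (∃ (β : Type) (_ : Lattice β), ¬ Holds β s t) ∧
        ∀ (L : Type v) [Lattice L], InVar (Ids K) L → Holds (Delta L) s t) ∧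
    (∃ (K : Type) (_ : Lattice K), Finite K ∧ Nontrivial K ∧ ¬ IsDistrib K ∧
      InVar (Ids K) K) := by
  exact ⟨fun K _ _ _ => exists_identity K,
    M3, inferInstance, inferInstance, inferInstance, M3_not_distrib, fun p hp => hp⟩

end Pool.Agent.Results.MP_bb8c7b_al.FinGen
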